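import Pool.Agent.Q101.Lorentz

set_option autoImplicit false

open scoped ENNReal NNReal

namespace Pool.Agent.Results.MP_c77635_an.NoLorentzSqueezing

section Defs

variable (𝕜 : Type) [RCLike 𝕜]

/-- The Hilbert space `ℓ_2`. -/
abbrev L2 : Type := lp (fun _ : ℕ => 𝕜) 2

variable {𝕜}

/-- `(x_n)` is a basis of `ℓ_2` with coordinate functionals `f ↦ ⟨x_n^*, f⟩`: dense linear span,
biorthogonality, the functionals separate points, and both sequences are norm bounded. -/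
structure IsBasis (x xs : ℕ → L2 𝕜) : Prop where
  dense : closure ((Submodule.span 𝕜 (Set.range x) : Submodule 𝕜 (L2 𝕜)) : Set (L2 𝕜)) = Set.univ
  biorth : ∀ m n, inner 𝕜 (xs m) (x n) = if m = n then 1 else 0
  separates : ∀ f : L2 𝕜, (∀ n, inner 𝕜 (xs n) f = 0) → f = 0
  bounded : ∃ B : ℝ, ∀ n, ‖x n‖ ≤ B ∧ ‖xs n‖ ≤ B

/-- `φ_m`: the supremum of `‖∑_{n ∈ A} ε_n x_n‖` over `|A| ≤ m` and unimodular `ε`. -/
noncomputable def fund (x : ℕ → L2 𝕜) (m : ℕ) : ℝ :=
  sSup {r | ∃ (A : Finset ℕ) (ε : ℕ → 𝕜), A.card ≤ m ∧ (∀ n ∈ A, ‖ε n‖ = 1) ∧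
    r = ‖∑ n ∈ A, ε n • x n‖}

/-- The basis is bidemocratic: `sup_m φ_m φ_m^* / m < ∞`. -/
def IsBidemocratic (x xs : ℕ → L2 𝕜) : Prop :=
  ∃ C : ℝ, ∀ m : ℕ, 1 ≤ m → fund x m * fund xs m / m ≤ C

/-- The non-increasing rearrangement (`rearr a n` is the `(n+1)`-st largest modulus). -/
noncomputable def rearr (a : ℕ → 𝕜) (n : ℕ) : ℝ≥0∞ :=
  sInf {t : ℝ≥0∞ | {k | t < ‖a k‖ₑ}.encard ≤ n}

/-- The quasi-norm of the Lorentz space `ℓ_{2,s}`. -/
noncomputable def lorentz (s : ℝ) (a : ℕ → 𝕜) : ℝ≥0∞ :=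
  (∑' n : ℕ, rearr a n ^ s * ((n : ℝ≥0∞) + 1) ^ (s / 2 - 1)) ^ (1 / s)

/-- The embedding of `ℓ_{2,q}` into `ℓ_2` induced by `(x_n)`. -/
def LowerEmbedding (x : ℕ → L2 𝕜) (q : ℝ) : Prop :=
  ∃ C : ℝ≥0, ∀ a : ℕ →₀ 𝕜, ‖a.sum fun n c => c • x n‖ₑ ≤ C * lorentz q a

/-- The embedding of `ℓ_2` into `ℓ_{2,r}` induced by `(x_n)`. -/
def UpperEmbedding (xs : ℕ → L2 𝕜) (r : ℝ) : Prop :=
  ∃ C : ℝ≥0, ∀ f : L2 𝕜, lorentz r (fun n => inner 𝕜 (xs n) f) ≤ C * ‖f‖ₑ

end Defs

section Aux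

variable {𝕜 : Type} [RCLike 𝕜]

open Q101.Lorentz

theorem fund_le {x : ℕ → L2 𝕜} {K : ℝ} (hK : 0 ≤ K)
    (h : ∀ (A : Finset ℕ) (ε : ℕ → 𝕜), (∀ n ∈ A, ‖ε n‖ = 1) →
      ‖∑ n ∈ A, ε n • x n‖ ≤ K * √(A.card : ℝ)) (m : ℕ) : fund x m ≤ K * √(m : ℝ) := by
  apply Real.sSup_le _ (by positivity)
  rintro _ ⟨A, ε, hA, hε, rfl⟩
  refine (h A ε hε).trans (mul_le_mul_of_nonneg_left (Real.sqrt_le_sqrt ?_) hK)
  exact_mod_cast hA

theorem fund_nonneg (x : ℕ → L2 𝕜) (m : ℕ) : 0 ≤ fund x m := by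
  apply Real.sSup_nonneg
  rintro _ ⟨A, ε, _, _, rfl⟩
  exact norm_nonneg _

/-- the test sequence -/
noncomputable def testFun (e : ℕ ≃ II) (N : ℕ) (n : ℕ) : ℝ :=
  if (e n).1 = N ∧ (e n).2.1 = false then om (e n).2.2 else 0

theorem testFun_symm (e : ℕ ≃ II) (N : ℕ) (i : Fin (N + 1)) :
    testFun e N (e.symm ⟨N, (false, i)⟩) = om i := by
  unfold testFun
  rw [Equiv.apply_symm_apply, if_pos ⟨rfl, rfl⟩]

theorem testFun_ne_zero {e : ℕ ≃ II} {N n : ℕ} (h : testFun e N n ≠ 0) :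
    ∃ i : Fin (N + 1), e.symm ⟨N, (false, i)⟩ = n := by
  unfold testFun at h
  split_ifs at h with h1
  · rcases hn : e n with ⟨M, k, i⟩
    rw [hn] at h1
    obtain ⟨h2, h3⟩ := h1
    simp only at h2 h3
    subst h2 h3
    exact ⟨i, by rw [← hn, Equiv.symm_apply_apply]⟩
  · exact absurd rfl h

/-- the test sequence as a finitely supported function -/
noncomputable def testSeq (𝕜 : Type) [RCLike 𝕜] (e : ℕ ≃ II) (N : ℕ) : ℕ →₀ 𝕜 := by
  classical
  exact Finsupp.onFinset (Finset.univ.image fun i : Fin (N + 1) => e.symm ⟨N, (false, i)⟩)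
    (fun n => ((testFun e N n : ℝ) : 𝕜)) (by
      intro n hn
      have h0 : testFun e N n ≠ 0 := fun h => hn (by simp [h])
      obtain ⟨i, hi⟩ := testFun_ne_zero h0
      exact Finset.mem_image.2 ⟨i, Finset.mem_univ _, hi⟩)

theorem testSeq_apply (e : ℕ ≃ II) (N n : ℕ) : testSeq 𝕜 e N n = ((testFun e N n : ℝ) : 𝕜) := rfl

theorem testSeq_sum (e : ℕ ≃ II) (N : ℕ) (x : II → L2 𝕜) :
    (testSeq 𝕜 e N).sum (fun n c => c • x (e n)) =
      ∑ i : Fin (N + 1), ((om i : ℝ) : 𝕜) • x ⟨N, (false, i)⟩ := by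
  classical
  rw [testSeq, Finsupp.onFinset_sum _ (fun n => by simp), Finset.sum_image]
  · apply Finset.sum_congr rfl
    intro i _
    rw [testFun_symm, Equiv.apply_symm_apply]
  · intro i _ j _ hij
    have := e.symm.injective hij
    simpa using this

theorem norm_testSeq (e : ℕ ≃ II) (N : ℕ) (i : Fin (N + 1)) :
    ‖testSeq 𝕜 e N (e.symm ⟨N, (false, i)⟩)‖ₑ = ENNReal.ofReal (om i) := by
  rw [testSeq_apply, testFun_symm, ← ofReal_norm, RCLike.norm_ofReal, abs_of_pos (om_pos _)]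

theorem rearr_le (e : ℕ ≃ II) (N n : ℕ) :
    rearr (testSeq 𝕜 e N) n ≤ ENNReal.ofReal (om n) := by
  classical
  apply sInf_le
  have hsub : {k | ENNReal.ofReal (om n) < ‖testSeq 𝕜 e N k‖ₑ} ⊆
      (((Finset.univ.filter (fun i : Fin (N + 1) => (i : ℕ) < n)).image
        (fun i => e.symm ⟨N, (false, i)⟩) : Finset ℕ) : Set ℕ) := by
    intro k hk
    have hk0 : testFun e N k ≠ 0 := by
      intro h
      have : ENNReal.ofReal (om n) < ‖testSeq 𝕜 e N k‖ₑ := hk
      rw [testSeq_apply, h] at this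
      simp at this
    obtain ⟨i, rfl⟩ := testFun_ne_zero hk0
    have h1 : ENNReal.ofReal (om n) < ENNReal.ofReal (om i) := by
      rw [← norm_testSeq (𝕜 := 𝕜) e N i]; exact hk
    have h2 : om n < om i := (ENNReal.ofReal_lt_ofReal_iff (om_pos _)).1 h1
    have h3 : (i : ℕ) < n := by
      by_contra hc
      push Not at hc
      have h4 : om i ≤ om n := by
        unfold om
        apply one_div_le_one_div_of_le (by positivity)
        apply Real.sqrt_le_sqrt
        have : (n : ℝ) ≤ (i : ℕ) := by exact_mod_cast hc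
        linarith
      linarith
    exact Finset.mem_coe.2 (Finset.mem_image.2 ⟨i, by simp [h3], rfl⟩)
  refine (Set.encard_le_encard hsub).trans ?_
  rw [Set.encard_coe_eq_coe_finsetCard]
  have h5 : ((Finset.univ.filter (fun i : Fin (N + 1) => (i : ℕ) < n)).image
      (fun i => e.symm ⟨N, (false, i)⟩)).card ≤ n := by
    refine Finset.card_image_le.trans ?_
    have h6 : (Finset.univ.filter (fun i : Fin (N + 1) => (i : ℕ) < n)).card ≤
        (Finset.range n).card := by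
      apply Finset.card_le_card_of_injOn (fun i : Fin (N + 1) => (i : ℕ))
      · intro i hi
        simpa using hi
      · intro i _ j _ hij
        exact Fin.ext hij
    simpa using h6
  exact_mod_cast h5

theorem rearr_eq_zero (e : ℕ ≃ II) {N n : ℕ} (h : N < n) : rearr (testSeq 𝕜 e N) n = 0 := by
  classical
  apply le_antisymm _ zero_le
  apply sInf_le
  have hsub : {k | (0 : ℝ≥0∞) < ‖testSeq 𝕜 e N k‖ₑ} ⊆
      ((Finset.univ.image (fun i : Fin (N + 1) => e.symm ⟨N, (false, i)⟩) : Finset ℕ) : Set ℕ) := by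
    intro k hk
    have hk0 : testFun e N k ≠ 0 := by
      intro h
      have : (0 : ℝ≥0∞) < ‖testSeq 𝕜 e N k‖ₑ := hk
      rw [testSeq_apply, h] at this
      simp at this
    obtain ⟨i, rfl⟩ := testFun_ne_zero hk0
    exact Finset.mem_coe.2 (Finset.mem_image.2 ⟨i, Finset.mem_univ _, rfl⟩)
  refine (Set.encard_le_encard hsub).trans ?_
  rw [Set.encard_coe_eq_coe_finsetCard]
  have h5 : (Finset.univ.image (fun i : Fin (N + 1) => e.symm ⟨N, (false, i)⟩)).card ≤ N + 1 := by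
    refine Finset.card_image_le.trans ?_
    simp
  have h6 : (Finset.univ.image (fun i : Fin (N + 1) => e.symm ⟨N, (false, i)⟩)).card ≤ n := by omega
  exact_mod_cast h6

theorem lorentz_le (e : ℕ ≃ II) (N : ℕ) {q : ℝ} (hq : 0 < q) :
    lorentz q (testSeq 𝕜 e N) ≤ ENNReal.ofReal (h N) ^ (1 / q) := by
  unfold lorentz
  have h1 : ∑' n : ℕ, rearr (testSeq 𝕜 e N) n ^ q * ((n : ℝ≥0∞) + 1) ^ (q / 2 - 1) ≤
      ENNReal.ofReal (h N) := by
    rw [tsum_eq_sum (s := Finset.range (N + 1))]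
    · have h2 : h N = ∑ n ∈ Finset.range (N + 1), 1 / ((n : ℝ) + 1) :=
        Fin.sum_univ_eq_sum_range (fun i : ℕ => 1 / ((i : ℝ) + 1)) (N + 1)
      rw [h2, ENNReal.ofReal_sum_of_nonneg (fun n _ => by positivity)]
      apply Finset.sum_le_sum
      intro n _
      have hn : (0 : ℝ) < (n : ℝ) + 1 := by positivity
      calc rearr (testSeq 𝕜 e N) n ^ q * ((n : ℝ≥0∞) + 1) ^ (q / 2 - 1)
          ≤ ENNReal.ofReal (om n) ^ q * ((n : ℝ≥0∞) + 1) ^ (q / 2 - 1) := by
            gcongr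
            exact rearr_le e N n
        _ = ENNReal.ofReal (om n ^ q) * ENNReal.ofReal (((n : ℝ) + 1) ^ (q / 2 - 1)) := by
            rw [ENNReal.ofReal_rpow_of_pos (om_pos n), ← ENNReal.ofReal_rpow_of_pos hn]
            congr 2
            rw [ENNReal.ofReal_add (by positivity) (by norm_num), ENNReal.ofReal_natCast,
              ENNReal.ofReal_one]
        _ = ENNReal.ofReal (1 / ((n : ℝ) + 1)) := by
            rw [← ENNReal.ofReal_mul (by have := om_pos n; positivity)]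
            congr 1
            have h3 : om n = ((n : ℝ) + 1) ^ (-(1 / 2) : ℝ) := by
              unfold om
              rw [Real.sqrt_eq_rpow, Real.rpow_neg hn.le, one_div]
            have h4 : -(1 / 2) * q + (q / 2 - 1) = (-1 : ℝ) := by ring
            rw [h3, ← Real.rpow_mul hn.le, ← Real.rpow_add hn, h4, Real.rpow_neg_one, one_div]
    · intro n hn
      rw [rearr_eq_zero e (by simpa using hn), ENNReal.zero_rpow_of_pos hq, zero_mul]
  gcongr

end Aux

open Q101.Lorentz in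
/-- Over each of the fields `ℝ`, `ℂ` there is a bidemocratic basis of `ℓ_2` for which, for every
`q > 1`, the embedding of `ℓ_{2,q}` into `ℓ_2` fails; so for no pair `1 < q < r < ∞` do both
embeddings hold. -/
theorem result (𝕜 : Type) [RCLike 𝕜] : ∃ x xs : ℕ → L2 𝕜,
    IsBasis x xs ∧ IsBidemocratic x xs ∧ (∀ q : ℝ, 1 < q → ¬ LowerEmbedding x q) ∧
      ∀ q r : ℝ, 1 < q → q < r → ¬ (LowerEmbedding x q ∧ UpperEmbedding xs r) := by
  classical
  obtain ⟨e⟩ := Q101.Blocks.nonempty_enum (fun N => Bool × Fin (N + 1))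
  let B : HilbertBasis ℕ 𝕜 (L2 𝕜) := HilbertBasis.ofRepr (LinearIsometryEquiv.refl 𝕜 _)
  let E : II → L2 𝕜 := fun s => B (e.symm s)
  have hE : Orthonormal 𝕜 E := B.orthonormal.comp _ e.symm.injective
  let x : ℕ → L2 𝕜 := fun n => X 𝕜 E (e n)
  let xs : ℕ → L2 𝕜 := fun n => XS 𝕜 E (e n)
  have hrE : Set.range E = Set.range B := e.symm.surjective.range_comp B
  have hxr : Set.range x = Set.range (X 𝕜 E) := e.surjective.range_comp (X 𝕜 E)
  have hsum : ∀ (y : II → L2 𝕜) (A : Finset ℕ) (ε : ℕ → 𝕜), ∑ n ∈ A, ε n • y (e n) =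
      ∑ s ∈ A.map e.toEmbedding, ε (e.symm s) • y s := by
    intro y A ε
    rw [Finset.sum_map]
    apply Finset.sum_congr rfl
    intro n _
    change ε n • y (e n) = ε (e.symm (e n)) • y (e n)
    rw [Equiv.symm_apply_apply]
  have hlow : ∀ q : ℝ, 1 < q → ¬ LowerEmbedding x q := by
    rintro q hq ⟨C, hC⟩
    have hq0 : 0 < q := by linarith
    have key : ∀ N, h N ≤ C * h N ^ (1 / q) := by
      intro N
      have h1 := hC (testSeq 𝕜 e N)
      have h2 : (testSeq 𝕜 e N).sum (fun n c => c • x n) =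
          ∑ i : Fin (N + 1), ((om i : ℝ) : 𝕜) • X 𝕜 E ⟨N, (false, i)⟩ := testSeq_sum e N _
      rw [h2] at h1
      have h3 := lower hE N
      have h4 : ENNReal.ofReal (h N) ≤ ENNReal.ofReal (C * h N ^ (1 / q)) := by
        calc ENNReal.ofReal (h N)
            ≤ ENNReal.ofReal ‖∑ i : Fin (N + 1), ((om i : ℝ) : 𝕜) • X 𝕜 E ⟨N, (false, i)⟩‖ :=
              ENNReal.ofReal_le_ofReal h3
          _ = ‖∑ i : Fin (N + 1), ((om i : ℝ) : 𝕜) • X 𝕜 E ⟨N, (false, i)⟩‖ₑ := ofReal_norm _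
          _ ≤ C * lorentz q (testSeq 𝕜 e N) := h1
          _ ≤ C * ENNReal.ofReal (h N) ^ (1 / q) := by
              gcongr
              exact lorentz_le e N hq0
          _ = ENNReal.ofReal (C * h N ^ (1 / q)) := by
              rw [ENNReal.ofReal_mul (NNReal.coe_nonneg C), ENNReal.ofReal_coe_nnreal,
                ENNReal.ofReal_rpow_of_pos (h_pos N)]
      exact (ENNReal.ofReal_le_ofReal_iff
        (mul_nonneg (NNReal.coe_nonneg C) (Real.rpow_nonneg (h_pos N).le _))).1 h4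
    have hs : 0 < 1 - 1 / q := by
      rw [sub_pos, div_lt_one hq0]; exact hq
    have key2 : ∀ N, h N ^ (1 - 1 / q) ≤ C := by
      intro N
      rw [Real.rpow_sub (h_pos N), Real.rpow_one, div_le_iff₀ (Real.rpow_pos_of_pos (h_pos N) _)]
      exact key N
    obtain ⟨N, hN⟩ := h_unbounded (((C : ℝ) + 1) ^ (1 / (1 - 1 / q)))
    have h5 : ((C : ℝ) + 1) < h N ^ (1 - 1 / q) := by
      have h6 : (0 : ℝ) ≤ (C : ℝ) + 1 := by positivity
      have h7 := Real.rpow_lt_rpow (Real.rpow_nonneg h6 _) hN hs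
      rwa [← Real.rpow_mul h6, one_div_mul_cancel hs.ne', Real.rpow_one] at h7
    have := key2 N
    linarith
  refine ⟨x, xs, ⟨?_, ?_, ?_, ⟨3, fun n => ⟨norm_X_le hE _, norm_XS_le hE _⟩⟩⟩, ?_, hlow,
    fun q r hq _ h => hlow q hq h.1⟩
  · have h1 : Submodule.span 𝕜 (Set.range B) ≤ Submodule.span 𝕜 (Set.range x) := by
      rw [hxr, Submodule.span_le, ← hrE]
      rintro _ ⟨s, rfl⟩
      exact E_mem_span s
    have h2 := B.dense_span
    rw [Set.eq_univ_iff_forall]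
    intro f
    have h3 : f ∈ (Submodule.span 𝕜 (Set.range B)).topologicalClosure := by rw [h2]; trivial
    exact closure_mono h1 h3
  · intro m n
    change inner 𝕜 (XS 𝕜 E (e m)) (X 𝕜 E (e n)) = _
    rw [biorth hE]
    simp only [EmbeddingLike.apply_eq_iff_eq]
  · intro f hf
    have h1 : ∀ s, inner 𝕜 (XS 𝕜 E s) f = 0 := by
      intro s
      have := hf (e.symm s)
      change inner 𝕜 (XS 𝕜 E (e (e.symm s))) f = 0 at this
      rwa [Equiv.apply_symm_apply] at this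
    have h2 := sep (E := E) f h1
    have h3 : ∀ n, B.repr f n = 0 := by
      intro n
      rw [B.repr_apply_apply]
      have := h2 (e n)
      change inner 𝕜 (B (e.symm (e n))) f = 0 at this
      rwa [Equiv.symm_apply_apply] at this
    have h4 : B.repr f = 0 := by
      apply lp.ext
      funext n
      exact h3 n
    exact (LinearIsometryEquiv.map_eq_zero_iff B.repr).1 h4
  · refine ⟨9, fun m hm => ?_⟩
    have hm' : (0 : ℝ) < m := by exact_mod_cast hm
    have h1 : fund x m ≤ 3 * √(m : ℝ) := by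
      apply fund_le (by norm_num)
      intro A ε hε
      rw [hsum (X 𝕜 E) A ε]
      refine (norm_X_sum hE _ _ ?_).trans ?_
      · intro s hs
        obtain ⟨n, hn, rfl⟩ := Finset.mem_map.1 hs
        change ‖ε (e.symm (e n))‖ = 1
        rw [Equiv.symm_apply_apply]
        exact hε n hn
      · rw [Finset.card_map]
    have h2 : fund xs m ≤ 3 * √(m : ℝ) := by
      apply fund_le (by norm_num)
      intro A ε hε
      rw [hsum (XS 𝕜 E) A ε]
      refine (norm_XS_sum hE _ _ ?_).trans ?_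
      · intro s hs
        obtain ⟨n, hn, rfl⟩ := Finset.mem_map.1 hs
        change ‖ε (e.symm (e n))‖ = 1
        rw [Equiv.symm_apply_apply]
        exact hε n hn
      · rw [Finset.card_map]
    rw [div_le_iff₀ hm']
    have h3 := mul_le_mul h1 h2 (fund_nonneg _ _) (by positivity)
    have h4 := Real.mul_self_sqrt hm'.le
    nlinarith

end Pool.Agent.Results.MP_c77635_an.NoLorentzSqueezing
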